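import Pool.Agent.Q29.IC.Ret

/-!
# Every configuration is realizable in a product of two free groups
-/

namespace Q29.IC

variable {k : ℕ}

section Con

variable (c : Configuration k)

/-- the sets at which the configuration is `1` -/
def P (J : Finset (Fin k)) : Prop := ∃ h : J.Nonempty, c ⟨J, h⟩ = 1

/-- the letters of the first free group which are allowed at `I` -/
def sX (I : Finset (Fin k)) : Set (Option (Finset (Fin k))) :=
  {x | x = none ∨ ∃ J, x = some J ∧ P c J ∧ I ⊆ J}

/-- the letters of the second free group which are allowed at `I` -/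
def sY (I : Finset (Fin k)) : Set (Finset (Fin k) × Fin k) :=
  {y | P c y.1 ∧ y.2 ∈ y.1 ∧ y.2 ∉ I ∧ I ⊆ y.1}

/-- the map of the first free group: `x_J ↦ d_J`, `x₀ ↦ 1` -/
def phi : FreeGroup (Option (Finset (Fin k))) →* FreeGroup (Finset (Fin k)) :=
  FreeGroup.lift fun x => x.elim 1 FreeGroup.of

/-- the map of the second free group: `y_{J,j} ↦ d_J` -/
def psi : FreeGroup (Finset (Fin k) × Fin k) →* FreeGroup (Finset (Fin k)) :=
  FreeGroup.lift fun y => FreeGroup.of y.1

/-- the section `d_J ↦ x_J` -/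
def sec : FreeGroup (Finset (Fin k)) →* FreeGroup (Option (Finset (Fin k))) :=
  FreeGroup.lift fun J => FreeGroup.of (some J)

theorem phi_some (J : Finset (Fin k)) : phi (FreeGroup.of (some J)) = FreeGroup.of J := by
  rw [phi, FreeGroup.lift_apply_of]; rfl

theorem phi_none : phi (FreeGroup.of (none : Option (Finset (Fin k)))) = 1 := by
  rw [phi, FreeGroup.lift_apply_of]; rfl

theorem psi_of (y : Finset (Fin k) × Fin k) : psi (FreeGroup.of y) = FreeGroup.of y.1 := by
  rw [psi, FreeGroup.lift_apply_of]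

theorem sec_of (J : Finset (Fin k)) : sec (FreeGroup.of J) = FreeGroup.of (some J) := by
  rw [sec, FreeGroup.lift_apply_of]

/-- the fibre products -/
noncomputable def HH (I : Finset (Fin k)) :
    Subgroup (FreeGroup (Option (Finset (Fin k))) × FreeGroup (Finset (Fin k) × Fin k)) :=
  (R (sX c I)).prod (R (sY c I)) ⊓
    (phi.comp (MonoidHom.fst _ _)).eqLocus (psi.comp (MonoidHom.snd _ _))

theorem mem_HH {I : Finset (Fin k)}
    {z : FreeGroup (Option (Finset (Fin k))) × FreeGroup (Finset (Fin k) × Fin k)} :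
    z ∈ HH c I ↔ z.1 ∈ R (sX c I) ∧ z.2 ∈ R (sY c I) ∧ phi z.1 = psi z.2 := by
  rw [HH, Subgroup.mem_inf, Subgroup.mem_prod]
  exact and_assoc

theorem sX_union (I J : Finset (Fin k)) : sX c (I ∪ J) = sX c I ∩ sX c J := by
  ext x
  constructor
  · rintro (h | ⟨L, h1, h2, h3⟩)
    · exact ⟨Or.inl h, Or.inl h⟩
    · exact ⟨Or.inr ⟨L, h1, h2, Finset.union_subset_left h3⟩,
        Or.inr ⟨L, h1, h2, Finset.union_subset_right h3⟩⟩
  · rintro ⟨h | ⟨L, h1, h2, h3⟩, h' | ⟨L', h1', h2', h3'⟩⟩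
    · exact Or.inl h
    · exact Or.inl h
    · exact Or.inl h'
    · have : L = L' := by
        rw [h1] at h1'
        exact Option.some_injective _ h1'
      subst this
      exact Or.inr ⟨L, h1, h2, Finset.union_subset h3 h3'⟩

theorem sY_union (I J : Finset (Fin k)) : sY c (I ∪ J) = sY c I ∩ sY c J := by
  ext y
  constructor
  · rintro ⟨h1, h2, h3, h4⟩
    rw [Finset.mem_union, not_or] at h3
    exact ⟨⟨h1, h2, h3.1, Finset.union_subset_left h4⟩,
      ⟨h1, h2, h3.2, Finset.union_subset_right h4⟩⟩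
  · rintro ⟨⟨h1, h2, h3, h4⟩, ⟨_, _, h5, h6⟩⟩
    exact ⟨h1, h2, by rw [Finset.mem_union, not_or]; exact ⟨h3, h5⟩, Finset.union_subset h4 h6⟩

theorem HH_union (I J : Finset (Fin k)) : HH c (I ∪ J) = HH c I ⊓ HH c J := by
  ext z
  rw [Subgroup.mem_inf, mem_HH, mem_HH, mem_HH, sX_union, sY_union, ← R_inter, ← R_inter,
    Subgroup.mem_inf, Subgroup.mem_inf]
  tauto

theorem inter_HH {I : Finset (Fin k)} (hI : I.Nonempty) :
    inter (fun i => HH c {i}) I = HH c I := by
  induction hI using Finset.Nonempty.cons_induction with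
  | singleton a => simp [inter]
  | cons a s ha hs ih =>
    rw [Finset.cons_eq_insert, Finset.insert_eq, HH_union, ← ih]
    simp only [inter]
    rw [← Finset.insert_eq, Finset.iInf_insert]

/-! ### The finitely generated case -/

/-- the generators -/
def gens (I : Finset (Fin k)) :
    Set (FreeGroup (Option (Finset (Fin k))) × FreeGroup (Finset (Fin k) × Fin k)) :=
  insert (FreeGroup.of none, 1)
    ((fun y => (FreeGroup.of (some y.1), FreeGroup.of y)) '' sY c I)

theorem gens_finite (I : Finset (Fin k)) : (gens c I).Finite :=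
  ((Set.toFinite _).image _).insert _

theorem none_mem (I : Finset (Fin k)) : none ∈ sX c I := Or.inl rfl

theorem some_mem {I J : Finset (Fin k)} (h : P c J) (h' : I ⊆ J) : some J ∈ sX c I :=
  Or.inr ⟨J, rfl, h, h'⟩

theorem gens_le (I : Finset (Fin k)) : Subgroup.closure (gens c I) ≤ HH c I := by
  rw [Subgroup.closure_le]
  rintro _ (rfl | ⟨y, hy, rfl⟩)
  · rw [SetLike.mem_coe, mem_HH]
    exact ⟨of_mem_R (none_mem c I), one_mem _, by rw [phi_none, map_one]⟩
  · rw [SetLike.mem_coe, mem_HH]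
    exact ⟨of_mem_R (some_mem c hy.1 hy.2.2.2), of_mem_R hy, by rw [phi_some, psi_of]⟩

/-- the lifts of the elements of the second factor -/
theorem lift_mem (I : Finset (Fin k)) {u : FreeGroup (Finset (Fin k) × Fin k)}
    (hu : u ∈ R (sY c I)) : (sec (psi u), u) ∈ Subgroup.closure (gens c I) := by
  have h1 : R (sY c I) ≤
      (Subgroup.closure (gens c I)).comap ((sec.comp psi).prod (MonoidHom.id _)) := by
    apply R_le
    intro y hy
    rw [Subgroup.mem_comap]
    apply Subgroup.subset_closure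
    refine Or.inr ⟨y, hy, ?_⟩
    simp only [MonoidHom.prod_apply, MonoidHom.comp_apply, MonoidHom.id_apply]
    rw [psi_of, sec_of]
  exact h1 hu

theorem fg_case {I : Finset (Fin k)} (hI : ¬ P c I) : (HH c I).FG := by
  refine (Subgroup.fg_iff _).mpr ⟨gens c I, le_antisymm (gens_le c I) ?_, gens_finite c I⟩
  set K := Subgroup.closure (gens c I) with hK
  -- the elements of the first factor in `K`
  set NK : Subgroup (FreeGroup (Option (Finset (Fin k)))) := K.comap (MonoidHom.inl _ _) with hNK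
  have hNKmem : ∀ w, w ∈ NK ↔ (w, (1 : FreeGroup (Finset (Fin k) × Fin k))) ∈ K := fun w => Iff.rfl
  have hconj : ∀ (z : FreeGroup (Option (Finset (Fin k))) × FreeGroup (Finset (Fin k) × Fin k)),
      z ∈ K → ∀ n ∈ NK, z.1 * n * z.1⁻¹ ∈ NK := by
    intro z hz n hn
    rw [hNKmem] at hn ⊢
    have h5 := mul_mem (mul_mem hz hn) (inv_mem hz)
    have h6 : z * (n, 1) * z⁻¹ = (z.1 * n * z.1⁻¹, 1) := by
      ext <;> simp
    rwa [h6] at h5
  have hnorm : ∀ (z : FreeGroup (Option (Finset (Fin k))) × FreeGroup (Finset (Fin k) × Fin k)),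
      z ∈ K → ∀ n, n ∈ NK ↔ z.1 * n * z.1⁻¹ ∈ NK := by
    intro z hz n
    refine ⟨hconj z hz n, fun h => ?_⟩
    have := hconj z⁻¹ (inv_mem hz) _ h
    rw [Prod.fst_inv, inv_inv] at this
    have e : z.1⁻¹ * (z.1 * n * z.1⁻¹) * z.1 = n := by group
    rwa [e] at this
  have hnone : FreeGroup.of none ∈ NK := by
    rw [hNKmem]
    exact Subgroup.subset_closure (Or.inl rfl)
  let M : Subgroup (FreeGroup (Option (Finset (Fin k)))) :=
    { carrier := {w | (∀ n, n ∈ NK ↔ w * n * w⁻¹ ∈ NK) ∧ w * (sec (phi w))⁻¹ ∈ NK}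
      one_mem' := ⟨fun n => by simp, by simp [one_mem]⟩
      mul_mem' := by
        rintro a b ⟨ha1, ha2⟩ ⟨hb1, hb2⟩
        refine ⟨fun n => ?_, ?_⟩
        · rw [hb1 n, ha1]
          have e : a * (b * n * b⁻¹) * a⁻¹ = a * b * n * (a * b)⁻¹ := by group
          rw [e]
        rw [map_mul, map_mul]
        have e : a * b * (sec (phi a) * sec (phi b))⁻¹ =
            a * (b * (sec (phi b))⁻¹) * a⁻¹ * (a * (sec (phi a))⁻¹) := by group
        rw [e]
        exact mul_mem ((ha1 _).mp hb2) ha2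
      inv_mem' := by
        rintro a ⟨ha1, ha2⟩
        have hinv : ∀ n, n ∈ NK ↔ a⁻¹ * n * a⁻¹⁻¹ ∈ NK := by
          intro n
          rw [ha1 (a⁻¹ * n * a⁻¹⁻¹)]
          have e : a * (a⁻¹ * n * a⁻¹⁻¹) * a⁻¹ = n := by group
          rw [e]
        refine ⟨hinv, ?_⟩
        rw [map_inv, map_inv, inv_inv]
        have e : a⁻¹ * sec (phi a) = a⁻¹ * (a * (sec (phi a))⁻¹)⁻¹ * a⁻¹⁻¹ := by group
        rw [e]
        exact (hinv _).mp (inv_mem ha2) }
  have hM : R (sX c I) ≤ M := by
    apply R_le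
    rintro x (rfl | ⟨J, rfl, hJ, hIJ⟩)
    · refine ⟨hnorm (FreeGroup.of none, 1) ((hNKmem _).mp hnone), ?_⟩
      rw [phi_none, map_one, inv_one, mul_one]
      exact hnone
    · have hne : I ≠ J := fun h => hI (h ▸ hJ)
      obtain ⟨j, hjJ, hjI⟩ := Finset.exists_of_ssubset (lt_of_le_of_ne hIJ hne)
      have hy : (J, j) ∈ sY c I := ⟨hJ, hjJ, hjI, hIJ⟩
      have hz : ((FreeGroup.of (some J), FreeGroup.of (J, j)) :
          FreeGroup (Option (Finset (Fin k))) × FreeGroup (Finset (Fin k) × Fin k)) ∈ K :=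
        Subgroup.subset_closure (Or.inr ⟨(J, j), hy, rfl⟩)
      refine ⟨hnorm _ hz, ?_⟩
      rw [phi_some, sec_of, mul_inv_cancel]
      exact one_mem _
  rintro ⟨w, u⟩ hz
  rw [mem_HH] at hz
  obtain ⟨h1, h2, h3⟩ := hz
  simp only at h1 h2 h3
  have h4 := (hM h1).2
  rw [hNKmem, h3] at h4
  have h5 := mul_mem h4 (lift_mem c I h2)
  have e : (w, u) = ((w * (sec (psi u))⁻¹, (1 : FreeGroup (Finset (Fin k) × Fin k))) :
      FreeGroup (Option (Finset (Fin k))) × FreeGroup (Finset (Fin k) × Fin k)) *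
      (sec (psi u), u) := by
    rw [Prod.mk_mul_mk, inv_mul_cancel_right, one_mul]
  rw [e]
  exact h5

end Con

end Q29.IC
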