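import Mathlib

/-!
# Intersection configurations of subgroups: definitions
-/

namespace Q29.IC

/-- A `k`-configuration: a map from the nonempty subsets of `[k]` to `{0, 1}`. -/
abbrev Configuration (k : ℕ) : Type := {I : Finset (Fin k) // I.Nonempty} → Fin 2

/-- The intersection `H_I` of the subgroups `H_i`, `i ∈ I`. -/
def inter {G : Type*} [Group G] {k : ℕ} (H : Fin k → Subgroup G) (I : Finset (Fin k)) :
    Subgroup G := ⨅ i ∈ I, H i

open Classical in
/-- The intersection configuration of a family of subgroups: its value at `I` is `0` if `H_I` is
finitely generated, and `1` otherwise. -/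
noncomputable def config {G : Type*} [Group G] {k : ℕ} (H : Fin k → Subgroup G) :
    Configuration k := fun I => if (inter H I).FG then 0 else 1

/-- The configuration `c` is realizable in `G`. -/
def Realizable (G : Type*) [Group G] {k : ℕ} (c : Configuration k) : Prop :=
  ∃ H : Fin k → Subgroup G, c = config H

/-- A group is intersection-full if every `k`-configuration, `k ≥ 1`, is realizable in it. -/
def IntersectionFull (G : Type*) [Group G] : Prop :=
  ∀ k : ℕ, 1 ≤ k → ∀ c : Configuration k, Realizable G c

/-- `G` contains `K`: it has a subgroup isomorphic to `K`. -/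
def Contains (G K : Type*) [Group G] [Group K] : Prop :=
  ∃ H : Subgroup G, Nonempty (K ≃* H)

end Q29.IC
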