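import Pool.Agent.Q29.IC.Build

/-!
# The infinitely generated case, and the configuration of the family
-/

namespace Q29.IC

section Wreath

open RegularWreathProduct

/-- the wreath product of two infinite cyclic groups (unrestricted) -/
abbrev W : Type := RegularWreathProduct (Multiplicative ℤ) (Multiplicative ℤ)

/-- the elements of finite support -/
def Wfin : Subgroup W where
  carrier := {g | {x | g.left x ≠ 1}.Finite}
  one_mem' := by simp
  mul_mem' := by
    intro a b ha hb
    have h1 : {x | (a * b).left x ≠ 1} ⊆ {x | a.left x ≠ 1} ∪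
        (fun x => a.right * x) '' {x | b.left x ≠ 1} := by
      intro x hx
      by_contra h
      rw [Set.mem_union, not_or] at h
      obtain ⟨h2, h3⟩ := h
      apply hx
      have h4 : a.left x = 1 := by
        by_contra h5
        exact h2 h5
      have h5 : b.left (a.right⁻¹ * x) = 1 := by
        by_contra h6
        exact h3 ⟨a.right⁻¹ * x, h6, by simp⟩
      rw [mul_left, Pi.mul_apply, h4, h5, one_mul]
    exact (ha.union (hb.image _)).subset h1
  inv_mem' := by
    intro a ha
    have h1 : {x | (a⁻¹).left x ≠ 1} ⊆ (fun x => a.right⁻¹ * x) '' {x | a.left x ≠ 1} := by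
      intro x hx
      refine ⟨a.right * x, fun h => hx ?_, by simp⟩
      rw [inv_left]
      simp [h]
    exact (ha.image _).subset h1

/-- the base group elements supported in `U` -/
def Wsup (U : Set (Multiplicative ℤ)) : Subgroup W where
  carrier := {g | g.right = 1 ∧ ∀ x, x ∉ U → g.left x = 1}
  one_mem' := ⟨rfl, fun _ _ => rfl⟩
  mul_mem' := by
    rintro a b ⟨ha, ha'⟩ ⟨hb, hb'⟩
    refine ⟨by rw [mul_right, ha, hb, mul_one], fun x hx => ?_⟩
    rw [mul_left, Pi.mul_apply, ha' x hx, ha, inv_one, one_mul, one_mul]
    exact hb' x hx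
  inv_mem' := by
    rintro a ⟨ha, ha'⟩
    refine ⟨by rw [inv_right, ha, inv_one], fun x hx => ?_⟩
    rw [inv_left]
    simp [ha, ha' x hx]

/-- a finitely generated subgroup of the base group, of elements of finite support, has finite
support -/
theorem fg_support {B : Subgroup W} (hB : B.FG) (h1 : ∀ g ∈ B, g.right = 1) (h2 : B ≤ Wfin) :
    ∃ U : Set (Multiplicative ℤ), U.Finite ∧ B ≤ Wsup U := by
  obtain ⟨T, hT⟩ := hB
  have hTB : ∀ g ∈ T, g ∈ B := fun g hg => hT ▸ Subgroup.subset_closure hg
  refine ⟨⋃ g ∈ T, {x | g.left x ≠ 1}, ?_, ?_⟩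
  · exact Set.Finite.biUnion T.finite_toSet fun g hg => h2 (hTB g hg)
  · rw [← hT, Subgroup.closure_le]
    intro g hg
    refine ⟨h1 g (hTB g hg), fun x hx => ?_⟩
    by_contra h
    apply hx
    rw [Set.mem_iUnion₂]
    exact ⟨g, hg, h⟩

end Wreath

variable {k : ℕ}

section Inf

variable (c : Configuration k)

open RegularWreathProduct

open Classical in
/-- the map to the wreath product -/
noncomputable def theta (I : Finset (Fin k)) : FreeGroup (Option (Finset (Fin k))) →* W :=
  FreeGroup.lift fun x => x.elim ⟨Pi.mulSingle 1 (Multiplicative.ofAdd 1), 1⟩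
    fun J => if J = I then ⟨1, Multiplicative.ofAdd 1⟩ else 1

open Classical in
/-- the exponent sum of `d_I` -/
noncomputable def esum (I : Finset (Fin k)) : FreeGroup (Finset (Fin k)) →* Multiplicative ℤ :=
  FreeGroup.lift fun J => if J = I then Multiplicative.ofAdd 1 else 1

theorem theta_right (I : Finset (Fin k)) (w : FreeGroup (Option (Finset (Fin k)))) :
    (theta I w).right = esum I (phi w) := by
  classical
  have h : (rightHom.comp (theta I)) = (esum I).comp phi := by
    apply FreeGroup.ext_hom
    intro x
    rw [MonoidHom.comp_apply, MonoidHom.comp_apply, theta, FreeGroup.lift_apply_of]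
    rcases x with _ | J
    · rw [phi_none, MonoidHom.map_one (esum I)]; rfl
    · rw [phi_some, esum, FreeGroup.lift_apply_of]
      simp only [Option.elim_some]
      split_ifs <;> rfl
  exact DFunLike.congr_fun h w

theorem theta_fin (I : Finset (Fin k)) (w : FreeGroup (Option (Finset (Fin k)))) :
    theta I w ∈ Wfin := by
  classical
  induction w using FreeGroup.induction_on with
  | C1 => rw [map_one]; exact one_mem _
  | of x =>
    rw [theta, FreeGroup.lift_apply_of]
    rcases x with _ | J
    · refine (Set.finite_singleton (1 : Multiplicative ℤ)).subset ?_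
      intro y hy
      by_contra h
      apply hy
      simp only [Option.elim_none]
      exact Pi.mulSingle_eq_of_ne h _
    · simp only [Option.elim_some]
      split_ifs
      · simp [Wfin]
      · exact one_mem _
  | inv_of x ih => rw [map_inv]; exact inv_mem ih
  | mul x y hx hy => rw [map_mul]; exact mul_mem hx hy

theorem not_fg {I : Finset (Fin k)} (hI : P c I) : ¬ (HH c I).FG := by
  classical
  intro hfg
  have hmap : ((HH c I).map ((theta I).comp (MonoidHom.fst _ _))).FG := by
    obtain ⟨T, hT⟩ := hfg
    refine ⟨T.image ((theta I).comp (MonoidHom.fst _ _)), ?_⟩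
    rw [← hT, MonoidHom.map_closure, Finset.coe_image]
  obtain ⟨U, hU, hsup⟩ := fg_support hmap (by
      rintro _ ⟨⟨w, u⟩, hz, rfl⟩
      rw [SetLike.mem_coe, mem_HH] at hz
      obtain ⟨h1, h2, h3⟩ := hz
      simp only at h1 h2 h3
      rw [MonoidHom.comp_apply, MonoidHom.coe_fst, theta_right, h3]
      have h4 : R (sY c I) ≤ ((esum I).comp psi).ker := by
        apply R_le
        intro y hy
        rw [MonoidHom.mem_ker, MonoidHom.comp_apply, psi_of, esum, FreeGroup.lift_apply_of,
          if_neg]
        intro h
        exact hy.2.2.1 (h ▸ hy.2.1)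
      exact h4 h2) (by
      rintro _ ⟨⟨w, u⟩, hz, rfl⟩
      exact theta_fin I w)
  -- the conjugates of the letter `x₀`
  have hmem : ∀ n : ℤ, Multiplicative.ofAdd n ∈ U := by
    intro n
    by_contra hn
    have h1 : (FreeGroup.of (some I) ^ n * FreeGroup.of none * (FreeGroup.of (some I) ^ n)⁻¹,
        (1 : FreeGroup (Finset (Fin k) × Fin k))) ∈ HH c I := by
      rw [mem_HH]
      refine ⟨?_, one_mem _, ?_⟩
      · have h2 : FreeGroup.of (some I) ∈ R (sX c I) := of_mem_R (some_mem c hI (subset_refl I))
        have h3 : FreeGroup.of none ∈ R (sX c I) := of_mem_R (none_mem c I)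
        exact mul_mem (mul_mem (zpow_mem h2 n) h3) (inv_mem (zpow_mem h2 n))
      · rw [map_mul, map_mul, map_inv, phi_none, mul_one, mul_inv_cancel, map_one]
    have h2 := hsup ⟨_, h1, rfl⟩
    have h3 := h2.2 _ hn
    rw [MonoidHom.comp_apply, MonoidHom.coe_fst, map_mul, map_mul, map_inv, map_zpow] at h3
    have h4 : theta I (FreeGroup.of (some I)) = inl (Multiplicative.ofAdd 1) := by
      rw [theta, FreeGroup.lift_apply_of]
      simp only [Option.elim_some, if_true]
      rfl
    have h5 : theta I (FreeGroup.of none) =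
        ⟨Pi.mulSingle 1 (Multiplicative.ofAdd 1), 1⟩ := by
      rw [theta, FreeGroup.lift_apply_of]
      rfl
    rw [h4, h5, ← map_zpow, ← ofAdd_zsmul] at h3
    have h6 : n • (1 : ℤ) = n := by simp
    rw [h6] at h3
    simp at h3
  have : (Set.range fun n : ℤ => Multiplicative.ofAdd n).Infinite :=
    Set.infinite_range_of_injective Multiplicative.ofAdd.injective
  exact this (hU.subset (by rintro _ ⟨n, rfl⟩; exact hmem n))

/-- **Every configuration is realizable in a product of two free groups of finite rank.** -/
theorem realizable : Realizable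
    (FreeGroup (Option (Finset (Fin k))) × FreeGroup (Finset (Fin k) × Fin k)) c := by
  classical
  refine ⟨fun i => HH c {i}, ?_⟩
  funext ⟨I, hI⟩
  rw [config]
  simp only
  rw [inter_HH c hI]
  by_cases h : c ⟨I, hI⟩ = 1
  · rw [if_neg (not_fg c ⟨hI, h⟩), h]
  · rw [if_pos (fg_case c (I := I) fun ⟨_, h'⟩ => h h')]
    have := Fin.exists_fin_two.mp ⟨c ⟨I, hI⟩, rfl⟩
    omega

end Inf

/-- The product of two free groups of rank two is intersection-full. -/
theorem intersectionFull : IntersectionFull (FreeGroup (Fin 2) × FreeGroup (Fin 2)) := by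
  intro k _ c
  obtain ⟨f, hf⟩ := exists_embedding (Option (Finset (Fin k)))
  obtain ⟨g, hg⟩ := exists_embedding (Finset (Fin k) × Fin k)
  exact (realizable c).map (f := f.prodMap g) (by
    rw [MonoidHom.coe_prodMap]
    exact Prod.map_injective.mpr ⟨hf, hg⟩)

end Q29.IC
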