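import Pool.Agent.Q29.IC.Inf

/-!
# The product of two free groups does not contain `F₂ × ℤ²`
-/

namespace Q29.IC

open scoped commutatorElement

/-- Commuting elements of a free group are powers of a common element. -/
theorem exists_root {α : Type} {b c : FreeGroup α} (h : Commute b c) :
    ∃ r : FreeGroup α, ∃ i j : ℤ, b = r ^ i ∧ c = r ^ j := by
  let H : Subgroup (FreeGroup α) := Subgroup.closure {b, c}
  have hb : b ∈ H := Subgroup.subset_closure (by simp)
  have hc : c ∈ H := Subgroup.subset_closure (by simp)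
  have hcomm : ∀ x ∈ ({b, c} : Set (FreeGroup α)), ∀ y ∈ ({b, c} : Set (FreeGroup α)),
      x * y = y * x := by
    rintro x (rfl | rfl) y (rfl | rfl)
    · rfl
    · exact h
    · exact h.symm
    · rfl
  have hH : ∀ x y : H, x * y = y * x := by
    intro x y
    have := (Subgroup.isMulCommutative_closure hcomm).is_comm.comm x y
    exact this
  let Y := IsFreeGroup.Generators H
  let e : H ≃* FreeGroup Y := IsFreeGroup.toFreeGroup H
  have hsub : Subsingleton Y := by
    constructor
    intro x y
    by_contra hxy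
    have h1 : (FreeGroup.of x : FreeGroup Y) * FreeGroup.of y
        = FreeGroup.of y * FreeGroup.of x := by
      apply e.symm.injective
      rw [map_mul, map_mul, hH]
    classical
    have h2 := congrArg FreeGroup.toWord h1
    simp only [FreeGroup.toWord_mul, FreeGroup.toWord_of] at h2
    have h3 : FreeGroup.reduce ([(x, true)] ++ [(y, true)]) = [(x, true), (y, true)] := by
      simp [FreeGroup.reduce, hxy]
    have h4 : FreeGroup.reduce ([(y, true)] ++ [(x, true)]) = [(y, true), (x, true)] := by
      simp [FreeGroup.reduce]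
    rw [h3, h4] at h2
    simp at h2
    exact hxy h2.1
  have hcyc : ∃ r : FreeGroup Y, ∀ z : FreeGroup Y, ∃ i : ℤ, z = r ^ i := by
    rcases isEmpty_or_nonempty Y with hY | ⟨⟨y⟩⟩
    · exact ⟨1, fun z => ⟨0, Subsingleton.elim _ _⟩⟩
    · refine ⟨FreeGroup.of y, fun z => ?_⟩
      have hz : z ∈ Subgroup.closure (Set.range (FreeGroup.of : Y → FreeGroup Y)) := by
        rw [FreeGroup.closure_range_of]; trivial
      have hr : Set.range (FreeGroup.of : Y → FreeGroup Y) = {FreeGroup.of y} := by
        ext w
        constructor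
        · rintro ⟨y', rfl⟩
          rw [Subsingleton.elim y' y]; rfl
        · rintro rfl
          exact ⟨y, rfl⟩
      rw [hr] at hz
      obtain ⟨i, hi⟩ := Subgroup.mem_closure_singleton.mp hz
      exact ⟨i, hi.symm⟩
  obtain ⟨r, hr⟩ := hcyc
  obtain ⟨i, hi⟩ := hr (e ⟨b, hb⟩)
  obtain ⟨j, hj⟩ := hr (e ⟨c, hc⟩)
  refine ⟨((e.symm r : H) : FreeGroup α), i, j, ?_, ?_⟩
  · have : (⟨b, hb⟩ : H) = (e.symm r) ^ i := by
      apply e.injective
      rw [map_zpow, MulEquiv.apply_symm_apply, hi]
    have := congrArg Subtype.val this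
    simpa using this
  · have : (⟨c, hc⟩ : H) = (e.symm r) ^ j := by
      apply e.injective
      rw [map_zpow, MulEquiv.apply_symm_apply, hj]
    have := congrArg Subtype.val this
    simpa using this

/-- commutation is transitive on the nontrivial elements of a free group -/
theorem comm_trans {α : Type} {p x y : FreeGroup α} (hp : p ≠ 1) (hx : Commute p x)
    (hy : Commute p y) : Commute x y := by
  obtain ⟨r, i, j, hi, hj⟩ := exists_root hx
  obtain ⟨s, k, l, hk, hl⟩ := exists_root hy
  have hi0 : i ≠ 0 := by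
    rintro rfl
    exact hp (by rw [hi, zpow_zero])
  have h1 : (s * r * s⁻¹) ^ i = r ^ i := by
    rw [conj_zpow, ← hi, hk]
    group
  have h2 : s * r * s⁻¹ = r := zpow_left_injective hi0 h1
  have h3 : Commute s r := by
    have h4 := congrArg (· * s) h2
    simp only [inv_mul_cancel_right] at h4
    exact h4
  rw [hj, hl]
  exact (h3.symm.zpow_zpow j l)

theorem aux {α : Type} {p q : FreeGroup α} (h : Commute p q) :
    ∃ i j : ℤ, (i ≠ 0 ∨ j ≠ 0 ∨ (p = 1 ∧ q = 1)) ∧ p ^ j = q ^ i := by
  obtain ⟨r, i, j, hi, hj⟩ := exists_root h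
  refine ⟨i, j, ?_, ?_⟩
  · by_cases h1 : i = 0
    · by_cases h2 : j = 0
      · right; right
        rw [hi, hj, h1, h2, zpow_zero]
        exact ⟨rfl, rfl⟩
      · exact Or.inr (Or.inl h2)
    · exact Or.inl h1
  · rw [hi, hj, ← zpow_mul, ← zpow_mul, mul_comm]

/-- the product of two free groups of rank two does not contain `F₂ × ℤ²` -/
theorem not_contains : ¬ Contains (FreeGroup (Fin 2) × FreeGroup (Fin 2))
    (FreeGroup (Fin 2) × (Fin 2 → Multiplicative ℤ)) := by
  rintro ⟨H, ⟨e⟩⟩
  obtain ⟨f, hf⟩ : ∃ f : FreeGroup (Fin 2) × (Fin 2 → Multiplicative ℤ) →*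
      FreeGroup (Fin 2) × FreeGroup (Fin 2), Function.Injective f :=
    ⟨H.subtype.comp e.toMonoidHom, by
      rw [MonoidHom.coe_comp]
      exact H.subtype_injective.comp e.injective⟩
  let x : FreeGroup (Fin 2) × (Fin 2 → Multiplicative ℤ) := (FreeGroup.of 0, 1)
  let y : FreeGroup (Fin 2) × (Fin 2 → Multiplicative ℤ) := (FreeGroup.of 1, 1)
  let z : Fin 2 → FreeGroup (Fin 2) × (Fin 2 → Multiplicative ℤ) :=
    fun i => (1, Pi.mulSingle i (Multiplicative.ofAdd 1))
  have hxy : ¬ Commute x y := by
    intro h
    have h1 : (FreeGroup.of (0 : Fin 2)) * FreeGroup.of 1 = FreeGroup.of 1 * FreeGroup.of 0 :=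
      congrArg Prod.fst h
    have h2 := congrArg FreeGroup.toWord h1
    simp only [FreeGroup.toWord_mul, FreeGroup.toWord_of] at h2
    have h3 : FreeGroup.reduce ([((0 : Fin 2), true)] ++ [(1, true)]) = [(0, true), (1, true)] := by
      decide
    have h4 : FreeGroup.reduce ([((1 : Fin 2), true)] ++ [(0, true)]) = [(1, true), (0, true)] := by
      decide
    rw [h3, h4] at h2
    simp at h2
  have hxz : ∀ i, Commute (z i) x := fun i => by
    apply Prod.ext
    · simp [z, x]
    · simp [z, x]
  have hyz : ∀ i, Commute (z i) y := fun i => by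
    apply Prod.ext
    · simp [z, y]
    · simp [z, y]
  have hzz : Commute (z 0) (z 1) := by
    apply Prod.ext
    · simp [z]
    · simp only [z, Prod.snd_mul]
      exact mul_comm _ _
  have hne : z 0 ≠ 1 := by
    intro h
    have h1 := congrFun (congrArg Prod.snd h) 0
    simp only [z, Pi.mulSingle_eq_same, Prod.snd_one, Pi.one_apply] at h1
    exact absurd (congrArg Multiplicative.toAdd h1) (by simp)
  have hind : ∀ i j : ℤ, (z 0) ^ j = (z 1) ^ i → i = 0 ∧ j = 0 := by
    intro i j h
    have h0 := congrFun (congrArg Prod.snd h) 0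
    have h1 := congrFun (congrArg Prod.snd h) 1
    simp only [z, Prod.pow_snd, Pi.pow_apply] at h0 h1
    rw [Pi.mulSingle_eq_same, Pi.mulSingle_eq_of_ne (by decide), one_zpow] at h0
    rw [Pi.mulSingle_eq_same, Pi.mulSingle_eq_of_ne (by decide), one_zpow] at h1
    have h2 := congrArg Multiplicative.toAdd h0
    have h3 := congrArg Multiplicative.toAdd h1
    simp at h2 h3
    exact ⟨by omega, by omega⟩
  have hfc : ¬ Commute (f x) (f y) := fun h => hxy (hf (by
    rw [map_mul, map_mul]
    exact h))
  -- the common end of the argument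
  have hfin : ∀ (p q : FreeGroup (Fin 2)) , Commute p q →
      (∀ i j : ℤ, p ^ j = q ^ i → f (z 0) ^ j = f (z 1) ^ i) → (p = 1 → f (z 0) = 1) → False := by
    intro p q hpq h1 h2
    obtain ⟨i, j, h3, h4⟩ := aux hpq
    have h5 := h1 i j h4
    rw [← map_zpow, ← map_zpow] at h5
    obtain ⟨h6, h7⟩ := hind i j (hf h5)
    rcases h3 with h3 | h3 | h3
    · exact h3 h6
    · exact h3 h7
    · exact hne (hf ((h2 h3.1).trans (map_one f).symm))
  have hcz : Commute (f (z 0)) (f (z 1)) := hzz.map f
  by_cases c1 : Commute (f x).1 (f y).1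
  · have c2 : ¬ Commute (f x).2 (f y).2 := fun h => hfc (Prod.ext c1 h)
    have h1 : ∀ i, (f (z i)).2 = 1 := by
      intro i
      by_contra h
      exact c2 (comm_trans h (congrArg Prod.snd ((hxz i).map f)) (congrArg Prod.snd ((hyz i).map f)))
    refine hfin (f (z 0)).1 (f (z 1)).1 (congrArg Prod.fst hcz) ?_ ?_
    · intro i j h
      apply Prod.ext
      · exact h
      · rw [Prod.pow_snd, Prod.pow_snd, h1, h1, one_zpow, one_zpow]
    · intro h
      exact Prod.ext h (h1 0)
  · have h1 : ∀ i, (f (z i)).1 = 1 := by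
      intro i
      by_contra h
      exact c1 (comm_trans h (congrArg Prod.fst ((hxz i).map f)) (congrArg Prod.fst ((hyz i).map f)))
    refine hfin (f (z 0)).2 (f (z 1)).2 (congrArg Prod.snd hcz) ?_ ?_
    · intro i j h
      apply Prod.ext
      · rw [Prod.pow_fst, Prod.pow_fst, h1, h1, one_zpow, one_zpow]
      · exact h
    · intro h
      exact Prod.ext (h1 0) h

/-! ### Finite presentation -/

/-- the four commutators -/
def rels : Set (FreeGroup (Fin 2 ⊕ Fin 2)) :=
  Set.range fun p : Fin 2 × Fin 2 =>
    ⁅(FreeGroup.of (Sum.inl p.1) : FreeGroup (Fin 2 ⊕ Fin 2)), FreeGroup.of (Sum.inr p.2)⁆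

/-- the product of two free groups of rank two is finitely presented -/
theorem isFinitelyPresented :
    Group.IsFinitelyPresented (FreeGroup (Fin 2) × FreeGroup (Fin 2)) := by
  have hfin : Finite rels := by
    unfold rels
    exact (Set.finite_range _).to_subtype
  let G := PresentedGroup rels
  let a : Fin 2 → G := fun i => PresentedGroup.of (Sum.inl i)
  let b : Fin 2 → G := fun i => PresentedGroup.of (Sum.inr i)
  have hab : ∀ i j, Commute (a i) (b j) := by
    intro i j
    have h1 : PresentedGroup.mk rels ⁅FreeGroup.of (Sum.inl i), FreeGroup.of (Sum.inr j)⁆ = 1 :=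
      PresentedGroup.one_of_mem ⟨(i, j), rfl⟩
    rw [map_commutatorElement] at h1
    exact commutatorElement_eq_one_iff_commute.mp h1
  let α : FreeGroup (Fin 2) →* G := FreeGroup.lift a
  let β : FreeGroup (Fin 2) →* G := FreeGroup.lift b
  have hαβ : ∀ u v, Commute (α u) (β v) := by
    intro u v
    have h1 : ∀ i, Commute (a i) (β v) := by
      intro i
      induction v using FreeGroup.induction_on with
      | C1 => rw [map_one]; exact Commute.one_right _
      | of j => simp only [β, FreeGroup.lift_apply_of]; exact hab i j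
      | inv_of j ih => rw [map_inv]; exact ih.inv_right
      | mul x y hx hy => rw [map_mul]; exact hx.mul_right hy
    induction u using FreeGroup.induction_on with
    | C1 => rw [map_one]; exact Commute.one_left _
    | of j => simp only [α, FreeGroup.lift_apply_of]; exact h1 j
    | inv_of j ih => rw [map_inv]; exact ih.inv_left
    | mul x y hx hy => rw [map_mul]; exact hx.mul_left hy
  let F : FreeGroup (Fin 2) × FreeGroup (Fin 2) →* G := MonoidHom.noncommCoprod α β hαβ
  let E : G →* FreeGroup (Fin 2) × FreeGroup (Fin 2) := PresentedGroup.toGroup (rels := rels)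
    (f := Sum.elim (fun i => (FreeGroup.of i, 1)) (fun i => (1, FreeGroup.of i))) (by
      rintro _ ⟨⟨i, j⟩, rfl⟩
      rw [map_commutatorElement, commutatorElement_eq_one_iff_commute]
      simp only [FreeGroup.lift_apply_of, Sum.elim_inl, Sum.elim_inr]
      apply Prod.ext <;> simp)
  have hEa : ∀ i, E (a i) = (FreeGroup.of i, 1) := fun i => PresentedGroup.toGroup.of _
  have hEb : ∀ i, E (b i) = (1, FreeGroup.of i) := fun i => PresentedGroup.toGroup.of _
  have hF1 : ∀ i, F (FreeGroup.of i, 1) = a i := by
    intro i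
    simp [F, α]
  have hF2 : ∀ i, F (1, FreeGroup.of i) = b i := by
    intro i
    simp [F, β]
  have h1 : E.comp F = MonoidHom.id _ := by
    apply MonoidHom.ext
    rintro ⟨u, v⟩
    have hu : E.comp α = MonoidHom.inl _ _ := by
      apply FreeGroup.ext_hom
      intro i
      rw [MonoidHom.comp_apply]
      simp only [α, FreeGroup.lift_apply_of]
      rw [hEa]
      rfl
    have hv : E.comp β = MonoidHom.inr _ _ := by
      apply FreeGroup.ext_hom
      intro i
      rw [MonoidHom.comp_apply]
      simp only [β, FreeGroup.lift_apply_of]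
      rw [hEb]
      rfl
    have hu' := DFunLike.congr_fun hu u
    have hv' := DFunLike.congr_fun hv v
    simp only [MonoidHom.comp_apply] at hu' hv'
    rw [MonoidHom.comp_apply, MonoidHom.noncommCoprod_apply, map_mul, hu', hv']
    simp
  have h2 : F.comp E = MonoidHom.id _ := by
    apply PresentedGroup.ext
    rintro (i | i)
    · rw [MonoidHom.comp_apply]
      change F (E (a i)) = a i
      rw [hEa, hF1]
    · rw [MonoidHom.comp_apply]
      change F (E (b i)) = b i
      rw [hEb, hF2]
  exact Group.IsFinitelyPresented.equiv (MonoidHom.toMulEquiv E F h2 h1)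

end Q29.IC
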