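import Pool.Agent.Q29.IC.Defs

/-!
# Free factors as fixed subgroups of retractions; transfer of configurations
-/

namespace Q29.IC

section Transfer

variable {G G' : Type*} [Group G] [Group G']

theorem fg_map_iff {f : G →* G'} (hf : Function.Injective f) (P : Subgroup G) :
    (P.map f).FG ↔ P.FG := by
  rw [← Group.fg_iff_subgroup_fg, ← Group.fg_iff_subgroup_fg]
  constructor
  · intro h
    exact Group.fg_of_surjective (f := (P.equivMapOfInjective f hf).symm.toMonoidHom)
      (P.equivMapOfInjective f hf).symm.surjective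
  · intro h
    exact Group.fg_of_surjective (f := (P.equivMapOfInjective f hf).toMonoidHom)
      (P.equivMapOfInjective f hf).surjective

theorem inter_map {f : G →* G'} (hf : Function.Injective f) {k : ℕ} (H : Fin k → Subgroup G)
    {I : Finset (Fin k)} (hI : I.Nonempty) :
    inter (fun i => (H i).map f) I = (inter H I).map f := by
  obtain ⟨i0, hi0⟩ := hI
  ext x
  simp only [inter, Subgroup.mem_iInf, Subgroup.mem_map]
  constructor
  · intro h
    obtain ⟨y, _, hy⟩ := h i0 hi0
    refine ⟨y, fun i hi => ?_, hy⟩
    obtain ⟨z, hz, hz'⟩ := h i hi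
    rwa [hf (hy.trans hz'.symm)]
  · rintro ⟨y, hy, rfl⟩ i hi
    exact ⟨y, hy i hi, rfl⟩

theorem Realizable.map {k : ℕ} {c : Configuration k} (h : Realizable G c) {f : G →* G'}
    (hf : Function.Injective f) : Realizable G' c := by
  classical
  obtain ⟨H, rfl⟩ := h
  refine ⟨fun i => (H i).map f, ?_⟩
  funext I
  simp only [config]
  rw [inter_map hf H I.2]
  simp only [fg_map_iff hf]

end Transfer

section Ret

variable {α : Type*}

open Classical in
/-- the retraction killing the letters outside `s` -/
noncomputable def ret (s : Set α) : FreeGroup α →* FreeGroup α :=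
  FreeGroup.lift fun a => if a ∈ s then FreeGroup.of a else 1

theorem ret_of {s : Set α} {a : α} (h : a ∈ s) : ret s (FreeGroup.of a) = FreeGroup.of a := by
  rw [ret, FreeGroup.lift_apply_of, if_pos h]

theorem ret_of_not {s : Set α} {a : α} (h : a ∉ s) : ret s (FreeGroup.of a) = 1 := by
  rw [ret, FreeGroup.lift_apply_of, if_neg h]

theorem ret_ret (s t : Set α) (w : FreeGroup α) : ret s (ret t w) = ret (s ∩ t) w := by
  have h : (ret s).comp (ret t) = ret (s ∩ t) := by
    apply FreeGroup.ext_hom
    intro a
    rw [MonoidHom.comp_apply]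
    by_cases ht : a ∈ t
    · rw [ret_of ht]
      by_cases hs : a ∈ s
      · rw [ret_of hs, ret_of (s := s ∩ t) ⟨hs, ht⟩]
      · rw [ret_of_not hs, ret_of_not fun h => hs h.1]
    · rw [ret_of_not ht, ret_of_not fun h => ht h.2, map_one]
  exact DFunLike.congr_fun h w

/-- the free factor generated by the letters in `s` -/
noncomputable def R (s : Set α) : Subgroup (FreeGroup α) := (ret s).eqLocus (MonoidHom.id _)

theorem mem_R {s : Set α} {w : FreeGroup α} : w ∈ R s ↔ ret s w = w := Iff.rfl

theorem of_mem_R {s : Set α} {a : α} (h : a ∈ s) : FreeGroup.of a ∈ R s := ret_of h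

theorem R_inter (s t : Set α) : R s ⊓ R t = R (s ∩ t) := by
  ext w
  rw [Subgroup.mem_inf, mem_R, mem_R, mem_R]
  constructor
  · rintro ⟨h1, h2⟩
    rw [← ret_ret, h2, h1]
  · intro h
    constructor
    · rw [← h, ret_ret]
      congr 2
      rw [← Set.inter_assoc, Set.inter_self]
    · rw [← h, ret_ret]
      congr 2
      rw [Set.inter_comm, Set.inter_assoc, Set.inter_self]

/-- a subgroup containing the letters in `s` contains `R s` -/
theorem R_le {s : Set α} {M : Subgroup (FreeGroup α)} (h : ∀ a ∈ s, FreeGroup.of a ∈ M) :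
    R s ≤ M := by
  have h1 : ∀ w, ret s w ∈ M := by
    intro w
    induction w using FreeGroup.induction_on with
    | C1 => rw [map_one]; exact one_mem M
    | of a =>
      by_cases ha : a ∈ s
      · rw [ret_of ha]; exact h a ha
      · rw [ret_of_not ha]; exact one_mem M
    | inv_of a ih => rw [map_inv]; exact inv_mem ih
    | mul x y hx hy => rw [map_mul]; exact mul_mem hx hy
  intro w hw
  rw [← mem_R.mp hw]
  exact h1 w

end Ret

section Embed

/-- the shift of the letters of `FreeGroup ℤ` -/
def shiftAut : Multiplicative ℤ →* MulAut (FreeGroup ℤ) where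
  toFun n := FreeGroup.freeGroupCongr (Equiv.addRight (Multiplicative.toAdd n))
  map_one' := by
    ext x : 1
    simp [FreeGroup.freeGroupCongr]
  map_mul' a b := by
    ext x : 1
    change FreeGroup.map _ x = FreeGroup.map _ (FreeGroup.map _ x)
    rw [FreeGroup.map.comp]
    congr 2
    funext i
    simp
    ring

/-- `i ↦ aⁱ b a⁻ⁱ` -/
def jz : FreeGroup ℤ →* FreeGroup (Fin 2) :=
  FreeGroup.lift fun i => FreeGroup.of 0 ^ i * FreeGroup.of 1 * (FreeGroup.of 0 ^ i)⁻¹

theorem jz_injective : Function.Injective jz := by
  let q : FreeGroup (Fin 2) →* SemidirectProduct (FreeGroup ℤ) (Multiplicative ℤ) shiftAut :=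
    FreeGroup.lift ![SemidirectProduct.inr (Multiplicative.ofAdd 1),
      SemidirectProduct.inl (FreeGroup.of 0)]
  have h : q.comp jz = SemidirectProduct.inl := by
    apply FreeGroup.ext_hom
    intro i
    simp only [MonoidHom.comp_apply, jz, FreeGroup.lift_apply_of, map_mul, map_inv, map_zpow, q]
    change (SemidirectProduct.inr (Multiplicative.ofAdd 1)) ^ i *
      SemidirectProduct.inl (FreeGroup.of 0) *
      ((SemidirectProduct.inr (Multiplicative.ofAdd 1)) ^ i)⁻¹ = _
    rw [← map_zpow, ← map_inv, ← SemidirectProduct.inl_aut]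
    congr 1
    change FreeGroup.map _ (FreeGroup.of 0) = _
    rw [FreeGroup.map.of]
    congr 1
    simp
  intro x y hxy
  have := congrArg q hxy
  have e : ∀ z, q (jz z) = SemidirectProduct.inl z := fun z => DFunLike.congr_fun h z
  rw [e, e] at this
  exact SemidirectProduct.inl_injective this

/-- countable free groups embed in the free group of rank two -/
theorem exists_embedding (α : Type) [Countable α] :
    ∃ f : FreeGroup α →* FreeGroup (Fin 2), Function.Injective f := by
  obtain ⟨ι, hι⟩ := Countable.exists_injective_nat α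
  refine ⟨jz.comp (FreeGroup.map fun z => (ι z : ℤ)), ?_⟩
  rw [MonoidHom.coe_comp]
  exact jz_injective.comp (FreeGroup.map_injective fun x y h => hι (by exact_mod_cast h))

end Embed

end Q29.IC
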